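import Mathlib

/-!
# More than `λ` reals from a subset of a singular cardinal `λ` of uncountable cofinality

Assume GCH and let `κ` be a measurable cardinal. Let `λ` be any singular cardinal of cofinality
`κ`. We show that there is a forcing notion `P` of cardinality `λ` that preserves all cardinals and
adds more than `λ` reals of the form `{n | (n, p) ∈ B for some p ∈ G}`, where `G` is the generic
filter and `B` is a subset of `ω × P` in the ground model. As `P` has cardinality `λ` we can assume
that `P` is the set `λ` with some preorder; then `A = G` is a subset of `λ`, `V[A]` has the same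
cardinals as `V`, and all the reals above are in `H(λ⁺)[A]`, where `H(λ⁺)` is computed in `V`.

Idea. `P` is the product of tree Prikry forcing at `κ` and of the forcing that adds `λ` Cohen reals.
Cardinals above `κ` are preserved by the `κ⁺`-chain condition, which follows by comparing the stems.
For the other cardinals we show with the Prikry property that below a suitable condition there are
only countably many possible values of a given ordinal below `κ` (this uses that the second factor
has the countable chain condition). `P` makes the cofinality of `λ` countable and adds `λ` reals, so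
in the extension there are at least `λ ^ ω > λ` reals, and they all have names that are subsets of
`ω × P`. The last step is a diagonalization like in the theorem of König.
-/

set_option autoImplicit false

namespace Pool.Agent.Results.MP_fa650a_lc.MeasurableCofinality

open Cardinal Set

universe u

/-! ### The forcing language

A sentence of the forcing language of a preordered set `P` (smaller conditions are stronger) is
represented by the set of the conditions which force it. -/

section Language

variable {P : Type u} [Preorder P]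

/-- `p` forces `not φ`: no `q ≤ p` forces `φ`. -/
def Fnot (φ : Set P) : Set P := {p | ∀ q ≤ p, q ∉ φ}

/-- `p` forces `φ and ψ`: it forces both. -/
def Fand (φ ψ : Set P) : Set P := {p | p ∈ φ ∧ p ∈ ψ}

/-- `p` forces `φ iff ψ`: it forces `not (φ and not ψ)` and `not (ψ and not φ)`. -/
def Fiff (φ ψ : Set P) : Set P := Fand (Fnot (Fand φ (Fnot ψ))) (Fnot (Fand ψ (Fnot φ)))

/-- `p` forces `for all i, φ i`: it forces every `φ i`. -/
def Fall {ι : Type*} (φ : ι → Set P) : Set P := {p | ∀ i, p ∈ φ i}

/-- `there is i with φ i` is `not for all i, not φ i`. -/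
def Fex {ι : Type*} (φ : ι → Set P) : Set P := Fnot (Fall fun i => Fnot (φ i))

/-- `p` forces that the generic filter meets `N`: the set of the conditions that lie below some
member of `N` is dense below `p`. -/
def Meets (N : Set P) : Set P := {p | ∀ q ≤ p, ∃ r ≤ q, ∃ s ∈ N, r ≤ s}

/-- Let `X` and `Y` be sets in the ground model. A name for a relation between `X` and `Y` is a map
`F` from `X × Y` to the sets of conditions; it names the set of all pairs `(x, y)` such that the
generic filter meets `F x y`. The following is the sentence: the relation named by `F` is a function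
from `X` to `Y`, that is, each `x` has some value `y`, and no `x` has two values. -/
def IsFun {X Y : Type u} (F : X → Y → Set P) : Set P :=
  Fand (Fall fun x : X => Fex fun y : Y => Meets (F x y))
    (Fall fun x : X => Fall fun y : Y => Fall fun y' : Y =>
      {p | y ≠ y' → p ∈ Fnot (Fand (Meets (F x y)) (Meets (F x y')))})

/-- The sentence: every element of `Y` is a value of the relation named by `F`. -/
def IsOnto {X Y : Type u} (F : X → Y → Set P) : Set P :=
  Fall fun y : Y => Fex fun x : X => Meets (F x y)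

/-- A code is a set `B` of pairs `(n, p)` in the ground model, where `n` is a natural number and `p`
a condition. The real with the code `B` is the set of all `n` such that `(n, p) ∈ B` for some `p` in
the generic filter. The following is the sentence: `n` is in the real with the code `B`. -/
def InReal (B : Set (ℕ × P)) (n : ℕ) : Set P := Meets {q | (n, q) ∈ B}

/-- The sentence: the codes `B` and `C` are codes of the same real. -/
def SameReal (B C : Set (ℕ × P)) : Set P := Fall fun n : ℕ => Fiff (InReal B n) (InReal C n)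

/-- The sentence: `F` is a function from `X` to the set of all codes, and every real with a code is
the real with the code `F x` for some `x`. If this fails for all `F` then the set of the reals with
a code does not have cardinality at most `#X` in the extension. -/
def Enumerates {X : Type u} (F : X → Set (ℕ × P) → Set P) : Set P :=
  Fand (IsFun F)
    (Fall fun B : Set (ℕ × P) => Fex fun x : X => Fex fun C : Set (ℕ × P) =>
      Fand (Meets (F x C)) (SameReal B C))

end Language

/-- Every cardinal of the ground model is a cardinal in the extension by `P`: for infinite cardinals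
`μ < ν`, no condition forces that some `F` is a function from `μ` onto `ν`. -/
def PreservesCardinals (P : Type u) [Preorder P] : Prop :=
  ∀ μ ν : Cardinal.{u}, ℵ₀ ≤ μ → μ < ν → ∀ (F : μ.ord.ToType → ν.ord.ToType → Set P) (p : P),
    p ∉ Fand (IsFun F) (IsOnto F)

section Basic

variable {P : Type u} [Preorder P]

theorem mem_Fex {ι : Type*} {φ : ι → Set P} {p : P} :
    p ∈ Fex φ ↔ ∀ q ≤ p, ∃ r ≤ q, ∃ i, r ∈ φ i := by
  simp only [Fex, Fnot, Fall, Set.mem_ofPred_eq, not_forall, not_not]
  constructor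
  · intro h q hq
    obtain ⟨i, r, hr, h'⟩ := h q hq
    exact ⟨r, hr, i, h'⟩
  · intro h q hq
    obtain ⟨r, hr, i, h'⟩ := h q hq
    exact ⟨i, r, hr, h'⟩

theorem meets_mono {N : Set P} {p q : P} (h : p ∈ Meets N) (hq : q ≤ p) : q ∈ Meets N :=
  fun r hr => h r (hr.trans hq)

theorem fnot_mono {N : Set P} {p q : P} (h : p ∈ Fnot N) (hq : q ≤ p) : q ∈ Fnot N :=
  fun r hr => h r (hr.trans hq)

/-- If `r` forces `φ` and `φ iff ψ`, and `ψ` says that the generic filter meets a set, then `r`
forces `ψ`. -/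
theorem meets_of_not_not {φ : Set P} {N : Set P} {r : P} (hφ : ∀ q ≤ r, q ∈ φ)
    (h : r ∈ Fnot (Fand φ (Fnot (Meets N)))) : r ∈ Meets N := by
  by_contra hcon
  have h1 : ∃ q ≤ r, ∀ q' ≤ q, ∀ s ∈ N, ¬ q' ≤ s := by
    by_contra hc
    push Not at hc
    exact hcon hc
  obtain ⟨q, hq, hq'⟩ := h1
  apply h q hq
  refine ⟨hφ q hq, ?_⟩
  intro q' hq'' hmem
  obtain ⟨t, ht, s, hs, hts⟩ := hmem q' le_rfl
  exact hq' t (ht.trans hq'') s hs hts

end Basic

/-! ### The forcing -/

section Forcing

variable {K : Type u} {L : Type u}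

/-- `e` can be appended to `s`, step by step, along the tree `T`. -/
def Follows (T : List K → Set K) : List K → List K → Prop
  | _, [] => True
  | s, a :: e => a ∈ T s ∧ Follows T (s ++ [a]) e

theorem follows_append {T : List K → Set K} : ∀ (e s e' : List K),
    Follows T s (e ++ e') ↔ Follows T s e ∧ Follows T (s ++ e) e'
  | [], s, e' => by simp [Follows]
  | a :: e, s, e' => by
    simp only [List.cons_append, Follows, follows_append e (s ++ [a]) e', List.append_assoc,
      List.nil_append, and_assoc]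

theorem follows_mono {T T' : List K → Set K} : ∀ (e s : List K),
    (∀ t, s <+: t → T t ⊆ T' t) → Follows T s e → Follows T' s e
  | [], _, _, _ => trivial
  | a :: e, s, h, ⟨h1, h2⟩ =>
    ⟨h s List.prefix_rfl h1, follows_mono e (s ++ [a])
      (fun t ht => h t ((List.prefix_append s [a]).trans ht)) h2⟩

/-- Conditions: a finite sequence `stem`, a tree, given by a set `tree s` in `U` of successors for
each finite sequence `s`, and (the graph of) a finite function `coh` from a finite subset of `L × ℕ`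
to `Bool`. -/
structure Cond (U : Ultrafilter K) (L : Type u) where
  /-- the stem -/
  stem : List K
  /-- the tree -/
  tree : List K → Set K
  tree_mem : ∀ t, tree t ∈ U
  /-- the part of the condition that belongs to the Cohen reals -/
  coh : Finset ((L × ℕ) × Bool)
  con : ∀ i, ¬ ((i, true) ∈ coh ∧ (i, false) ∈ coh)

variable {U : Ultrafilter K}

/-- `p ≤ q` iff the stem of `p` extends the stem of `q` along the tree of `q`, above the stem of `p`
the tree of `p` is contained in the tree of `q`, and the Cohen part of `p` extends that of `q`. -/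
instance : Preorder (Cond U L) where
  le p q := (∃ e, p.stem = q.stem ++ e ∧ Follows q.tree q.stem e) ∧
    (∀ t, p.stem <+: t → p.tree t ⊆ q.tree t) ∧ q.coh ⊆ p.coh
  le_refl p := ⟨⟨[], by simp, trivial⟩, fun t _ => subset_rfl, subset_rfl⟩
  le_trans p q r h h' := by
    obtain ⟨⟨e, he, hf⟩, ht, hc⟩ := h
    obtain ⟨⟨e', he', hf'⟩, ht', hc'⟩ := h'
    have hpq : q.stem <+: p.stem := ⟨e, he.symm⟩
    refine ⟨⟨e' ++ e, by rw [he, he', List.append_assoc], ?_⟩, ?_, hc'.trans hc⟩
    · rw [follows_append]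
      refine ⟨hf', ?_⟩
      rw [← he']
      exact follows_mono e q.stem ht' hf
    · intro t hpt
      exact (ht t hpt).trans (ht' t (hpq.trans hpt))

theorem le_def {p q : Cond U L} : p ≤ q ↔ (∃ e, p.stem = q.stem ++ e ∧ Follows q.tree q.stem e) ∧
    (∀ t, p.stem <+: t → p.tree t ⊆ q.tree t) ∧ q.coh ⊆ p.coh := Iff.rfl

/-- The set `O` of conditions of tree Prikry forcing is open: stronger conditions are in `O`. -/
def IsOpenSet (U : Ultrafilter K) (O : Set (List K × (List K → Set K))) : Prop :=
  ∀ t T, (t, T) ∈ O → ∀ e T', Follows T t e → (∀ s, (t ++ e) <+: s → T' s ⊆ T s) →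
    (∀ s, T' s ∈ U) → (t ++ e, T') ∈ O

/-- The stem `t` has rank at most `n` for the open set `O`: rank `0` means that there is a condition
with the stem `t` in `O`, and rank at most `n + 1` means that `t` has rank at most `n` or almost all
one-step extensions of `t` have rank at most `n`. -/
def Good (U : Ultrafilter K) (O : Set (List K × (List K → Set K))) : ℕ → List K → Prop
  | 0, t => ∃ T, (∀ s, T s ∈ U) ∧ (t, T) ∈ O
  | n + 1, t => Good U O n t ∨ {a | Good U O n (t ++ [a])} ∈ U

/-- If `t` has rank at most `n` then there is a tree such that all extensions of `t` along the tree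
by at least `n` steps give conditions in `O`. -/
theorem good_direct {O : Set (List K × (List K → Set K))} (hO : IsOpenSet U O) :
    ∀ n t, Good U O n t → ∃ T : List K → Set K, (∀ s, T s ∈ U) ∧
      ∀ e, n ≤ e.length → Follows T t e → (t ++ e, T) ∈ O := by
  classical
  intro n
  induction n with
  | zero =>
    rintro t ⟨T, hT, h⟩
    exact ⟨T, hT, fun e _ he => hO t T h e T he (fun s _ => subset_rfl) hT⟩
  | succ n ih =>
    rintro t (h | h)
    · obtain ⟨T, hT, h'⟩ := ih t h
      exact ⟨T, hT, fun e he => h' e (by omega)⟩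
    · have key : ∀ a, ∃ T : List K → Set K, (∀ s, T s ∈ U) ∧ (Good U O n (t ++ [a]) →
          ∀ e, n ≤ e.length → Follows T (t ++ [a]) e → (t ++ [a] ++ e, T) ∈ O) := by
        intro a
        by_cases ha : Good U O n (t ++ [a])
        · obtain ⟨T, hT, h'⟩ := ih _ ha
          exact ⟨T, hT, fun _ => h'⟩
        · exact ⟨fun _ => univ, fun _ => Filter.univ_mem, fun h' => absurd h' ha⟩
      choose S hS hS' using key
      let T : List K → Set K := fun s =>
        {b | (s = t → b ∈ {a | Good U O n (t ++ [a])}) ∧ ∀ a, t ++ [a] <+: s → b ∈ S a s}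
      have hT : ∀ s, T s ∈ U := by
        intro s
        apply Filter.inter_mem
        · by_cases hs : s = t
          · subst hs
            exact Filter.mem_of_superset h fun b hb _ => hb
          · exact Filter.mem_of_superset Filter.univ_mem fun b _ h' => absurd h' hs
        · by_cases hs : ∃ a, t ++ [a] <+: s
          · obtain ⟨a, ha⟩ := hs
            refine Filter.mem_of_superset (hS a s) fun b hb a' ha' => ?_
            have : a' = a := by
              have h1 := List.prefix_of_prefix_length_le ha' ha (by simp)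
              have h2 := h1.eq_of_length (by simp)
              simpa using h2
            rw [this]
            exact hb
          · push Not at hs
            exact Filter.mem_of_superset Filter.univ_mem fun b _ a ha => absurd ha (hs a)
      refine ⟨T, hT, ?_⟩
      rintro (_ | ⟨a, e⟩) he hf
      · simp at he
      · obtain ⟨h1, h2⟩ := hf
        have hgood : Good U O n (t ++ [a]) := h1.1 rfl
        have hsub : ∀ s, t ++ [a] <+: s → T s ⊆ S a s := fun s hs b hb => hb.2 a hs
        have h3 := hS' a hgood e (by simpa using he) (follows_mono e _ hsub h2)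
        have h4 := hO _ _ h3 [] T trivial (by
          intro s hs
          rw [List.append_nil] at hs
          exact hsub s ((List.prefix_append _ _).trans hs)) hT
        simpa using h4

/-- If `t` has no rank then there is a tree such that no extension of `t` along the tree is the stem
of a condition in `O`. -/
theorem bad_direct {O : Set (List K × (List K → Set K))}
    (hU : ∀ A : ℕ → Set K, (∀ n, A n ∈ U) → (⋂ n, A n) ∈ U) (t : List K)
    (ht : ∀ n, ¬ Good U O n t) : ∃ T : List K → Set K, (∀ s, T s ∈ U) ∧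
      ∀ e, Follows T t e → ∀ T' : List K → Set K, (∀ s, T' s ∈ U) → (t ++ e, T') ∉ O := by
  classical
  let T : List K → Set K := fun s => {a | (∀ n, ¬ Good U O n s) → ∀ n, ¬ Good U O n (s ++ [a])}
  refine ⟨T, ?_, ?_⟩
  · intro s
    by_cases hs : ∀ n, ¬ Good U O n s
    · have h1 : (⋂ n, {a | ¬ Good U O n (s ++ [a])}) ∈ U := by
        apply hU
        intro n
        have h2 := hs (n + 1)
        simp only [Good, not_or] at h2
        exact Ultrafilter.compl_mem_iff_notMem.2 h2.2
      refine Filter.mem_of_superset h1 fun a ha _ n => ?_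
      exact mem_iInter.1 ha n
    · exact Filter.mem_of_superset Filter.univ_mem fun a _ h => absurd h hs
  · have key : ∀ e t, (∀ n, ¬ Good U O n t) → Follows T t e → ∀ n, ¬ Good U O n (t ++ e) := by
      intro e
      induction e with
      | nil =>
        intro t ht _
        simpa using ht
      | cons a e ih =>
        rintro t ht ⟨h1, h2⟩
        have := ih (t ++ [a]) (h1 ht) h2
        simpa using this
    intro e he T' hT' hmem
    exact key e t ht he 0 ⟨T', hT', hmem⟩

/-- The countable chain condition: a family of pairwise incompatible finite functions is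
countable. -/
theorem countable_of_incompatible {I J : Type*} : ∀ (n : ℕ) (S : Set J)
    (c : J → Finset (I × Bool)), (∀ j ∈ S, (c j).card ≤ n) →
    (∀ j ∈ S, ∀ i, ¬ ((i, true) ∈ c j ∧ (i, false) ∈ c j)) →
    (∀ j ∈ S, ∀ j' ∈ S, j ≠ j' → ∃ i b, (i, b) ∈ c j ∧ (i, !b) ∈ c j') → S.Countable := by
  classical
  intro n
  induction n with
  | zero =>
    intro S c hn _ hinc
    apply Set.Subsingleton.countable
    intro j hj j' hj'
    by_contra hne
    obtain ⟨i, b, h1, _⟩ := hinc j hj j' hj' hne
    have := Finset.card_eq_zero.1 (Nat.le_zero.1 (hn j hj))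
    rw [this] at h1
    simp at h1
  | succ n ih =>
    intro S c hn hcon hinc
    by_contra hS
    obtain ⟨j0, hj0⟩ : S.Nonempty := by
      by_contra h
      rw [Set.not_nonempty_iff_eq_empty] at h
      rw [h] at hS
      exact hS Set.countable_empty
    have hcover : S ⊆ {j0} ∪ ⋃ x ∈ (c j0 : Set (I × Bool)), {j ∈ S | (x.1, !x.2) ∈ c j} := by
      intro j hj
      by_cases h : j = j0
      · left
        exact h
      · right
        obtain ⟨i, b, h1, h2⟩ := hinc j0 hj0 j hj (Ne.symm h)
        simp only [mem_iUnion]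
        exact ⟨(i, b), h1, hj, h2⟩
    apply hS
    refine Set.Countable.mono hcover ((Set.countable_singleton j0).union ?_)
    refine Set.Countable.biUnion (Finset.countable_toSet _) ?_
    rintro ⟨i, b⟩ hib
    refine ih {j ∈ S | (i, !b) ∈ c j} (fun j => (c j).erase (i, !b)) ?_ ?_ ?_
    · rintro j ⟨hj, hj'⟩
      rw [Finset.card_erase_of_mem hj']
      have := hn j hj
      omega
    · rintro j ⟨hj, hj'⟩ i' ⟨h1, h2⟩
      exact hcon j hj i' ⟨Finset.mem_of_mem_erase h1, Finset.mem_of_mem_erase h2⟩
    · rintro j ⟨hj, hj'⟩ j' ⟨hk, hk'⟩ hne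
      obtain ⟨i', b', h1, h2⟩ := hinc j hj j' hk hne
      refine ⟨i', b', Finset.mem_erase.2 ⟨?_, h1⟩, Finset.mem_erase.2 ⟨?_, h2⟩⟩
      · rintro h
        rw [Prod.mk.injEq] at h
        obtain ⟨hi, hb⟩ := h
        have h3 := hcon j' hk i'
        rw [← hi] at hk'
        subst hb
        cases b
        · exact h3 ⟨hk', h2⟩
        · exact h3 ⟨h2, hk'⟩
      · rintro h
        rw [Prod.mk.injEq] at h
        obtain ⟨hi, hb⟩ := h
        have h3 := hcon j hj i'
        rw [← hi] at hj'
        have hb' : b = b' := by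
          cases b <;> cases b' <;> first | rfl | exact absurd hb (by decide)
        subst hb'
        cases b
        · exact h3 ⟨hj', h1⟩
        · exact h3 ⟨h1, hj'⟩

/-- The trees of two conditions with the same stem can be intersected. -/
theorem exists_le_of_compatible [DecidableEq L] (q r : Cond U L) (hs : q.stem = r.stem)
    (hc : ∀ i b, (i, b) ∈ q.coh → (i, !b) ∉ r.coh) : ∃ t : Cond U L, t ≤ q ∧ t ≤ r := by
  refine ⟨⟨q.stem, fun s => q.tree s ∩ r.tree s, fun s =>
    Filter.inter_mem (q.tree_mem s) (r.tree_mem s), q.coh ∪ r.coh, ?_⟩, ?_, ?_⟩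
  · rintro i ⟨h1, h2⟩
    rw [Finset.mem_union] at h1 h2
    rcases h1 with h1 | h1 <;> rcases h2 with h2 | h2
    · exact q.con i ⟨h1, h2⟩
    · exact hc i true h1 h2
    · exact hc i false h2 h1
    · exact r.con i ⟨h1, h2⟩
  · exact ⟨⟨[], by simp, trivial⟩, fun t _ => inter_subset_left, Finset.subset_union_left⟩
  · exact ⟨⟨[], by simp [hs], trivial⟩, fun t _ => inter_subset_right,
      Finset.subset_union_right⟩

/-- A set of pairwise incompatible conditions with the same stem is countable. -/
theorem countable_of_same_stem {J : Type*} (S : Set J) (q : J → Cond U L) (s : List K)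
    (hs : ∀ j ∈ S, (q j).stem = s)
    (hinc : ∀ j ∈ S, ∀ j' ∈ S, j ≠ j' → ¬ ∃ t : Cond U L, t ≤ q j ∧ t ≤ q j') : S.Countable := by
  classical
  have h1 : S = ⋃ n : ℕ, {j ∈ S | (q j).coh.card ≤ n} := by
    ext j
    simp only [mem_iUnion, Set.mem_ofPred_eq, exists_and_left]
    exact ⟨fun h => ⟨h, _, le_rfl⟩, fun h => h.1⟩
  rw [h1]
  apply Set.countable_iUnion
  intro n
  refine countable_of_incompatible n _ (fun j => (q j).coh) (fun j hj => hj.2)
    (fun j _ => (q j).con) ?_
  rintro j ⟨hj, _⟩ j' ⟨hj', _⟩ hne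
  by_contra hcon
  push Not at hcon
  exact hinc j hj j' hj' hne (exists_le_of_compatible _ _ ((hs j hj).trans (hs j' hj').symm) hcon)

/-- No map from a set `X` onto a set `Y` with more than `κ` elements is added if `#X < #Y`. -/
theorem nocollapse_large {κ : Cardinal.{u}} (hκ : ℵ₀ ≤ κ) (hK : #K = κ) {X Y : Type u}
    (hXY : #X < #Y) (hY : κ < #Y) (E : X → Y → Set (Cond U L))
    (hE : ∀ x y q r, q ∈ E x y → r ≤ q → r ∈ E x y) (p : Cond U L)
    (hfun : ∀ q ≤ p, ∀ x y y', q ∈ E x y → q ∈ E x y' → y = y')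
    (honto : ∀ y, ∀ q ≤ p, ∃ r ≤ q, ∃ x, r ∈ E x y) : False := by
  classical
  have h1 : ∀ y, ∃ x, ∃ r ≤ p, r ∈ E x y := by
    intro y
    obtain ⟨r, hr, x, hx⟩ := honto y p le_rfl
    exact ⟨x, r, hr, hx⟩
  choose x r hr hx using h1
  -- the fibres of `y ↦ (x y, stem (r y))` are countable
  have h2 : ∀ c : X × List K, {y | (x y, (r y).stem) = c}.Countable := by
    intro c
    refine countable_of_same_stem _ r c.2 (fun y hy => ?_) ?_
    · simp only [Set.mem_ofPred_eq] at hy
      rw [← hy]
    · rintro y hy y' hy' hne ⟨t, ht, ht'⟩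
      simp only [Set.mem_ofPred_eq] at hy hy'
      have hxx : x y = x y' := (congrArg Prod.fst hy).trans (congrArg Prod.fst hy').symm
      apply hne
      refine hfun t (ht.trans (hr y)) (x y) y y' (hE _ _ _ _ (hx y) ht) ?_
      rw [hxx]
      exact hE _ _ _ _ (hx y') ht'
  have : Infinite K := by
    rw [Cardinal.infinite_iff, hK]
    exact hκ
  have h3 : #(X × List K) < #Y := by
    rw [Cardinal.mk_prod, Cardinal.lift_id, Cardinal.lift_id, Cardinal.mk_list_eq_mk, hK]
    exact Cardinal.mul_lt_of_lt (hκ.trans hY.le) hXY hY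
  have h4 : #Y ≤ max #(X × List K) ℵ₀ := by
    have h5 : (⋃ c : X × List K, {y | (x y, (r y).stem) = c}) = Set.univ := by
      ext y
      simp
    rw [← Cardinal.mk_univ, ← h5]
    refine (Cardinal.mk_iUnion_le _).trans ?_
    refine (Cardinal.mul_le_max _ _).trans ?_
    refine max_le (max_le (le_max_left _ _) ?_) (le_max_right _ _)
    refine (ciSup_le' fun c => ?_)
    exact (Cardinal.le_aleph0_iff_set_countable.2 (h2 c)).trans (le_max_right _ _)
  exact absurd h4 (not_le.2 (max_lt h3 (hκ.trans_lt hY)))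

/-- There are paths of any length. -/
theorem exists_follows {T : List K → Set K} (hT : ∀ s, T s ∈ U) : ∀ (n : ℕ) (s : List K),
    ∃ e : List K, e.length = n ∧ Follows T s e
  | 0, s => ⟨[], rfl, trivial⟩
  | n + 1, s => by
    obtain ⟨a, ha⟩ := U.nonempty_of_mem (hT s)
    obtain ⟨e, he, he'⟩ := exists_follows hT n (s ++ [a])
    exact ⟨a :: e, by simp [he], ha, he'⟩

/-- No map from an infinite set `X` onto a set `Y` with less than `κ` elements is added if
`#X < #Y`. -/
theorem nocollapse_small {κ : Cardinal.{u}}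
    (hU : ∀ (ι : Type u) (A : ι → Set K), #ι < κ → (∀ i, A i ∈ U) → (⋂ i, A i) ∈ U)
    (hκ : ℵ₀ < κ) {X Y : Type u} (hX : ℵ₀ ≤ #X)
    (hXY : #X < #Y) (hY : #Y < κ) (E : X → Y → Set (Cond U L))
    (hE : ∀ x y q r, q ∈ E x y → r ≤ q → r ∈ E x y) (p : Cond U L)
    (hfun : ∀ q ≤ p, ∀ x y y', q ∈ E x y → q ∈ E x y' → y = y')
    (honto : ∀ y, ∀ q ≤ p, ∃ r ≤ q, ∃ x, r ∈ E x y) : False := by
  classical
  have hU0 : ∀ A : ℕ → Set K, (∀ n, A n ∈ U) → (⋂ n, A n) ∈ U := by
    intro A hA
    have := hU (ULift.{u} ℕ) (fun n => A n.down) (by simpa using hκ) (fun n => hA n.down)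
    refine Filter.mem_of_superset this ?_
    intro a ha
    rw [mem_iInter] at ha ⊢
    exact fun n => ha ⟨n⟩
  -- the open sets
  let O : X → Y → Set (List K × (List K → Set K)) := fun x y =>
    {z | ∃ q : Cond U L, q.stem = z.1 ∧ q.tree = z.2 ∧ p.coh ⊆ q.coh ∧ q ∈ E x y}
  have hO : ∀ x y, IsOpenSet U (O x y) := by
    rintro x y t T ⟨q, hq1, hq2, hq3, hq4⟩ e T' he hT' hTU
    simp only at hq1 hq2
    subst hq1 hq2
    refine ⟨⟨q.stem ++ e, T', hTU, q.coh, q.con⟩, rfl, rfl, hq3, hE _ _ _ _ hq4 ?_⟩
    exact ⟨⟨e, rfl, he⟩, hT', subset_rfl⟩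
  have key : ∀ z : X × Y, ∃ T : List K → Set K, (∀ s, T s ∈ U) ∧
      ((∃ n, ∀ e, n ≤ e.length → Follows T p.stem e → (p.stem ++ e, T) ∈ O z.1 z.2) ∨
      ∀ e, Follows T p.stem e → ∀ T' : List K → Set K, (∀ s, T' s ∈ U) →
        (p.stem ++ e, T') ∉ O z.1 z.2) := by
    rintro ⟨x, y⟩
    by_cases h : ∃ n, Good U (O x y) n p.stem
    · obtain ⟨n, hn⟩ := h
      obtain ⟨T, hT, h'⟩ := good_direct (hO x y) n p.stem hn
      exact ⟨T, hT, Or.inl ⟨n, h'⟩⟩
    · push Not at h
      obtain ⟨T, hT, h'⟩ := bad_direct hU0 p.stem h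
      exact ⟨T, hT, Or.inr h'⟩
  choose T hT hT' using key
  have hXYκ : #(X × Y) < κ := by
    rw [Cardinal.mk_prod, Cardinal.lift_id, Cardinal.lift_id]
    exact Cardinal.mul_lt_of_lt hκ.le (hXY.trans hY) hY
  let W : List K → Set K := fun s => p.tree s ∩ ⋂ z : X × Y, T z s
  have hW : ∀ s, W s ∈ U := fun s =>
    Filter.inter_mem (p.tree_mem s) (hU (X × Y) (fun z => T z s) hXYκ (fun z => hT z s))
  have hWT : ∀ z s, W s ⊆ T z s := fun z s a ha => mem_iInter.1 ha.2 z
  let q : Cond U L := ⟨p.stem, W, hW, p.coh, p.con⟩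
  have hqp : q ≤ p := ⟨⟨[], by simp [q], trivial⟩, fun t _ => inter_subset_left, subset_rfl⟩
  -- every `y` has an `x` with the first alternative
  have h1 : ∀ y, ∃ z : X × ℕ, ∀ e, z.2 ≤ e.length → Follows (T (z.1, y)) p.stem e →
      (p.stem ++ e, T (z.1, y)) ∈ O z.1 y := by
    intro y
    obtain ⟨r, ⟨⟨e, he, hf⟩, hr2, hr3⟩, x, hx⟩ := honto y q hqp
    rcases hT' (x, y) with ⟨n, h'⟩ | h'
    · exact ⟨(x, n), h'⟩
    · exfalso
      refine h' e (follows_mono e _ (fun t _ => hWT _ t) hf) r.tree r.tree_mem ?_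
      exact ⟨r, he, rfl, hr3, hx⟩
  choose z hz using h1
  -- there is an uncountable fibre
  have h2 : ∃ c : X × ℕ, ¬ {y | z y = c}.Countable := by
    by_contra hcon
    push Not at hcon
    have h5 : (⋃ c : X × ℕ, {y | z y = c}) = Set.univ := by
      ext y
      simp
    have h6 : #Y ≤ #(X × ℕ) * ℵ₀ := by
      rw [← Cardinal.mk_univ, ← h5]
      refine (Cardinal.mk_iUnion_le _).trans ?_
      gcongr
      exact ciSup_le' fun c => Cardinal.le_aleph0_iff_set_countable.2 (hcon c)
    rw [Cardinal.mk_prod, Cardinal.lift_id', Cardinal.mk_nat, Cardinal.lift_aleph0,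
      Cardinal.mul_aleph0_eq hX, Cardinal.mul_aleph0_eq hX] at h6
    exact absurd h6 (not_le.2 hXY)
  obtain ⟨⟨x, n⟩, hc⟩ := h2
  obtain ⟨e, he, hf⟩ := exists_follows hW n p.stem
  have h3 : ∀ y ∈ {y | z y = (x, n)}, ∃ c : Cond U L, c.stem = p.stem ++ e ∧ c.tree = W ∧
      p.coh ⊆ c.coh ∧ c ∈ E x y := by
    intro y hy
    simp only [Set.mem_ofPred_eq] at hy
    have h4 := hz y e (by rw [hy, he]) (follows_mono e _ (fun t _ => hWT _ t) hf)
    rw [hy] at h4
    have h5 := hO x y _ _ h4 [] W trivial (fun s _ => hWT _ s) hW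
    rw [List.append_nil] at h5
    exact h5
  have : Nonempty (Cond U L) := ⟨p⟩
  choose! c hc1 hc2 hc3 hc4 using h3
  apply hc
  refine countable_of_same_stem _ c (p.stem ++ e) hc1 ?_
  rintro y hy y' hy' hne ⟨t, ht, ht'⟩
  apply hne
  have htp : t ≤ p := by
    refine ht.trans ⟨⟨e, hc1 y hy, follows_mono e _ (fun s _ => inter_subset_left) hf⟩, ?_,
      hc3 y hy⟩
    intro s _
    rw [hc2 y hy]
    exact inter_subset_left
  exact hfun t htp x y y' (hE _ _ _ _ (hc4 y hy) ht) (hE _ _ _ _ (hc4 y' hy') ht')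

/-- A cardinal with a complete non-principal ultrafilter is a strong limit. -/
theorem two_power_lt {κ : Cardinal.{u}} (hK : #K = κ)
    (hU : ∀ (ι : Type u) (A : ι → Set K), #ι < κ → (∀ i, A i ∈ U) → (⋂ i, A i) ∈ U)
    (hne : ∀ a : K, {a} ∉ U) {μ : Cardinal.{u}} (hμ : μ < κ) : 2 ^ μ < κ := by
  classical
  by_contra hcon
  push Not at hcon
  have h1 : #K ≤ #(Set μ.out) := by
    rw [Cardinal.mk_set, Cardinal.mk_out, hK]
    exact hcon
  obtain ⟨f⟩ := h1
  have h2 : (⋂ n : μ.out, {a | n ∈ f a ↔ {a | n ∈ f a} ∈ U}) ∈ U := by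
    apply hU
    · rw [Cardinal.mk_out]
      exact hμ
    · intro n
      by_cases h : {a | n ∈ f a} ∈ U
      · refine Filter.mem_of_superset h fun a ha => ?_
        exact ⟨fun _ => h, fun _ => ha⟩
      · refine Filter.mem_of_superset (Ultrafilter.compl_mem_iff_notMem.2 h) fun a ha => ?_
        exact ⟨fun h' => absurd h' ha, fun h' => absurd h' h⟩
  obtain ⟨a, ha⟩ := U.nonempty_of_mem h2
  apply hne a
  refine Filter.mem_of_superset h2 fun b hb => ?_
  apply f.injective
  ext n
  exact (mem_iInter.1 hb n).trans (mem_iInter.1 ha n).symm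

/-- No map from an infinite set `X` onto a set `Y` is added if `#X < #Y`. -/
theorem nocollapse {κ : Cardinal.{u}} (hκ : ℵ₀ < κ) (hK : #K = κ)
    (hU : ∀ (ι : Type u) (A : ι → Set K), #ι < κ → (∀ i, A i ∈ U) → (⋂ i, A i) ∈ U)
    (hne : ∀ a : K, {a} ∉ U) {X Y : Type u} (hX : ℵ₀ ≤ #X)
    (hXY : #X < #Y) (E : X → Y → Set (Cond U L))
    (hE : ∀ x y q r, q ∈ E x y → r ≤ q → r ∈ E x y) (p : Cond U L)
    (hfun : ∀ q ≤ p, ∀ x y y', q ∈ E x y → q ∈ E x y' → y = y')
    (honto : ∀ y, ∀ q ≤ p, ∃ r ≤ q, ∃ x, r ∈ E x y) : False := by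
  rcases lt_or_ge κ #Y with hY | hY
  · exact nocollapse_large hκ.le hK hXY hY E hE p hfun honto
  · obtain ⟨S, hS⟩ := Cardinal.le_mk_iff_exists_set.1 (Order.succ_le_of_lt hXY)
    have h1 : #X < #S := by
      rw [hS]
      exact Order.lt_succ _
    have h2 : #S < κ := by
      rw [hS]
      exact (Order.succ_le_of_lt (Cardinal.cantor _)).trans_lt
        (two_power_lt hK hU hne (hXY.trans_le hY))
    refine nocollapse_small hU hκ hX h1 h2 (fun x y => E x y.1) (fun x y => hE x y.1) p ?_
      (fun y => honto y.1)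
    intro q hq x y y' h h'
    exact Subtype.ext (hfun q hq x y.1 y'.1 h h')

/-! ### More than `λ` reals -/

/-- The Cohen real with the number `γ` is the `n`-th section of the real with the code `C`. -/
def EqR (C : Set (ℕ × Cond U L)) (n : ℕ) (γ : L) : Set (Cond U L) :=
  {q | ∀ k, ∀ r ≤ q, (((γ, k), true) ∈ r.coh → r ∈ InReal C (Nat.pair n k)) ∧
    (((γ, k), false) ∈ r.coh → r ∈ Fnot (InReal C (Nat.pair n k)))}

/-- The Cohen real with the number `γ` is the `n`-th section of the real with the code `F ξ`. -/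
def Val (F : L → Set (ℕ × Cond U L) → Set (Cond U L)) (n : ℕ) (ξ γ : L) : Set (Cond U L) :=
  {q | ∃ C, q ∈ Meets (F ξ C) ∧ q ∈ EqR C n γ}

/-- The Cohen real with the number `γ` is not the `n`-th section of the real with the code `F ξ`
for any `ξ < ν`. -/
def Avoids [LinearOrder L] (F : L → Set (ℕ × Cond U L) → Set (Cond U L)) (ν : L) (n : ℕ) (γ : L) :
    Set (Cond U L) :=
  {q | ∀ ξ < ν, ∀ r ≤ q, r ∉ Val F n ξ γ}

/-- `γ` is the least one with the last property. -/
def Least [LinearOrder L] (F : L → Set (ℕ × Cond U L) → Set (Cond U L)) (ν : L) (n : ℕ) (γ : L) :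
    Set (Cond U L) :=
  {q | q ∈ Avoids F ν n γ ∧ ∀ γ' < γ, ∀ r ≤ q, r ∉ Avoids F ν n γ'}

theorem eqR_mono {C : Set (ℕ × Cond U L)} {n : ℕ} {γ : L} {q r : Cond U L} (h : q ∈ EqR C n γ)
    (hr : r ≤ q) : r ∈ EqR C n γ := fun k s hs => h k s (hs.trans hr)

theorem val_mono {F : L → Set (ℕ × Cond U L) → Set (Cond U L)} {n : ℕ} {ξ γ : L} {q r : Cond U L}
    (h : q ∈ Val F n ξ γ) (hr : r ≤ q) : r ∈ Val F n ξ γ := by
  obtain ⟨C, h1, h2⟩ := h
  exact ⟨C, meets_mono h1 hr, eqR_mono h2 hr⟩

theorem avoids_mono [LinearOrder L] {F : L → Set (ℕ × Cond U L) → Set (Cond U L)} {ν : L} {n : ℕ}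
    {γ : L} {q r : Cond U L} (h : q ∈ Avoids F ν n γ) (hr : r ≤ q) : r ∈ Avoids F ν n γ :=
  fun ξ hξ s hs => h ξ hξ s (hs.trans hr)

theorem least_mono [LinearOrder L] {F : L → Set (ℕ × Cond U L) → Set (Cond U L)} {ν : L} {n : ℕ}
    {γ : L} {q r : Cond U L} (h : q ∈ Least F ν n γ) (hr : r ≤ q) : r ∈ Least F ν n γ :=
  ⟨avoids_mono h.1 hr, fun γ' hγ' s hs => h.2 γ' hγ' s (hs.trans hr)⟩

theorem least_unique [LinearOrder L] {F : L → Set (ℕ × Cond U L) → Set (Cond U L)} {ν : L} {n : ℕ}
    {γ γ' : L} {q : Cond U L} (h : q ∈ Least F ν n γ) (h' : q ∈ Least F ν n γ') : γ = γ' := by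
  rcases lt_trichotomy γ γ' with hlt | heq | hlt
  · exact absurd h.1 (h'.2 γ hlt q le_rfl)
  · exact heq
  · exact absurd h'.1 (h.2 γ' hlt q le_rfl)

/-- Two different Cohen reals are different. -/
theorem eqR_unique [DecidableEq L] {C : Set (ℕ × Cond U L)} {n : ℕ} {γ γ' : L} {q : Cond U L}
    (h : q ∈ EqR C n γ) (h' : q ∈ EqR C n γ') : γ = γ' := by
  by_contra hne
  obtain ⟨k, hk⟩ := Finset.exists_notMem (q.coh.image fun x => x.1.2)
  have hk' : ∀ (δ : L) (b : Bool), ((δ, k), b) ∉ q.coh := fun δ b hmem =>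
    hk (Finset.mem_image.2 ⟨_, hmem, rfl⟩)
  let r : Cond U L := ⟨q.stem, q.tree, q.tree_mem,
    insert ((γ, k), true) (insert ((γ', k), false) q.coh), by
      rintro ⟨δ, m⟩ ⟨h1, h2⟩
      simp only [Finset.mem_insert, Prod.mk.injEq, Bool.true_eq_false, Bool.false_eq_true, and_true,
        and_false, false_or] at h1 h2
      rcases h1 with ⟨rfl, rfl⟩ | h1
      · rcases h2 with ⟨h3, _⟩ | h2
        · exact hne h3
        · exact hk' _ _ h2
      · rcases h2 with ⟨rfl, rfl⟩ | h2
        · exact hk' _ _ h1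
        · exact q.con _ ⟨h1, h2⟩⟩
  have hr : r ≤ q := ⟨⟨[], by simp [r], trivial⟩, fun t _ => subset_rfl, fun x hx =>
    Finset.mem_insert_of_mem (Finset.mem_insert_of_mem hx)⟩
  have h1 := (h k r hr).1 (Finset.mem_insert_self _ _)
  have h2 := (h' k r hr).2 (Finset.mem_insert_of_mem (Finset.mem_insert_self _ _))
  exact h2 r le_rfl h1

/-- In the extension there are more than `λ` reals. -/
theorem not_enumerates [LinearOrder L] [WellFoundedLT L] {κ : Cardinal.{u}} (hκ : ℵ₀ < κ)
    (hK : #K = κ) (hL : κ < #L) (hseg : ∀ ν : L, #(Iio ν) < #L) (g : K → L)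
    (hg : ∀ ξ : L, {a | ξ < g a} ∈ U) (F : L → Set (ℕ × Cond U L) → Set (Cond U L))
    (p : Cond U L) : p ∉ Enumerates F := by
  classical
  rintro ⟨⟨hF1, hF2⟩, henum⟩
  -- least exists
  have hleast : ∀ q ≤ p, ∀ (ν : L) (n : ℕ), ∃ r ≤ q, ∃ γ, r ∈ Least F ν n γ := by
    intro q hq ν n
    have h1 : ∃ γ, ∃ r ≤ q, r ∈ Avoids F ν n γ := by
      by_contra hcon
      push Not at hcon
      refine nocollapse_large hκ.le hK (hseg ν) hL (fun ξ γ => Val F n ξ.1 γ)
        (fun ξ γ q r h hr => val_mono h hr) q ?_ ?_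
      · rintro r hr ⟨ξ, hξ⟩ γ γ' ⟨C, h1, h2⟩ ⟨C', h3, h4⟩
        have hCC : C = C' := by
          by_contra hne
          exact hF2 ξ C C' hne r (hr.trans hq) ⟨h1, h3⟩
        subst hCC
        exact eqR_unique h2 h4
      · intro γ r hr
        have h2 := hcon γ r hr
        simp only [Avoids, Set.mem_ofPred_eq, not_forall, not_not] at h2
        obtain ⟨ξ, hξ, s, hs, hs'⟩ := h2
        exact ⟨s, hs, ⟨ξ, hξ⟩, hs'⟩
    obtain ⟨γ, ⟨r, hr, hr'⟩, hmin⟩ := WellFounded.has_min (wellFounded_lt (α := L))
      {γ | ∃ r ≤ q, r ∈ Avoids F ν n γ} h1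
    exact ⟨r, hr, γ, hr', fun γ' hγ' s hs hs' => hmin γ' ⟨s, hs.trans hr, hs'⟩ hγ'⟩
  -- the new real
  let B : Set (ℕ × Cond U L) := {x | ∃ a γ, x.2.stem[(Nat.unpair x.1).1]? = some a ∧
    x.2 ∈ Least F (g a) (Nat.unpair x.1).1 γ ∧ ((γ, (Nat.unpair x.1).2), true) ∈ x.2.coh}
  obtain ⟨r0, hr0, ξ, h1⟩ := mem_Fex.1 (henum B) p le_rfl
  obtain ⟨r, hr, C, h2, h3⟩ := mem_Fex.1 h1 r0 le_rfl
  obtain ⟨a, ha1, ha2⟩ := U.nonempty_of_mem (Filter.inter_mem (r.tree_mem r.stem) (hg ξ))
  let r1 : Cond U L := ⟨r.stem ++ [a], r.tree, r.tree_mem, r.coh, r.con⟩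
  have hr1 : r1 ≤ r := ⟨⟨[a], rfl, ha1, trivial⟩, fun t _ => subset_rfl, subset_rfl⟩
  obtain ⟨r2, hr2, γ, hγ⟩ := hleast r1 (hr1.trans (hr.trans hr0)) (g a) r.stem.length
  have hr2r : r2 ≤ r := hr2.trans hr1
  have hstem : ∀ q ≤ r2, q.stem[r.stem.length]? = some a := by
    intro q hq
    obtain ⟨⟨e, he, _⟩, _⟩ := hq.trans hr2
    rw [he]
    simp [r1]
  -- the `n`-th section of the new real is the Cohen real
  have hval : r2 ∈ Val F r.stem.length ξ γ := by
    refine ⟨C, meets_mono h2 hr2r, ?_⟩
    intro k s hs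
    have hsame := h3 (Nat.pair r.stem.length k)
    have hB : ∀ q ≤ s, ((γ, k), true) ∈ q.coh → q ∈ InReal B (Nat.pair r.stem.length k) := by
      intro q hq hqk q' hq'
      refine ⟨q', le_rfl, q, ?_, hq'⟩
      simp only [B, Set.mem_ofPred_eq, Nat.unpair_pair]
      exact ⟨a, γ, hstem q (hq.trans hs), least_mono hγ (hq.trans hs), hqk⟩
    constructor
    · intro hk
      apply meets_of_not_not (φ := InReal B (Nat.pair r.stem.length k))
      · intro q hq
        exact hB q hq (hq.2.2 hk)
      · exact fnot_mono hsame.1 (hs.trans hr2r)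
    · intro hk q hq hmem
      have h4 : q ∈ InReal B (Nat.pair r.stem.length k) := by
        apply meets_of_not_not (φ := InReal C (Nat.pair r.stem.length k))
        · exact fun q' hq' => meets_mono hmem hq'
        · exact fnot_mono hsame.2 (hq.trans (hs.trans hr2r))
      obtain ⟨t, ht, t', ht', htt⟩ := h4 q le_rfl
      simp only [B, Set.mem_ofPred_eq, Nat.unpair_pair] at ht'
      obtain ⟨a', γ', h5, h6, h7⟩ := ht'
      have ht2 : t ≤ r2 := ht.trans (hq.trans hs)
      have h8 : t.stem[r.stem.length]? = some a' := by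
        obtain ⟨⟨e, he, _⟩, _⟩ := htt
        rw [he]
        obtain ⟨h9, h10⟩ := List.getElem?_eq_some_iff.1 h5
        rw [List.getElem?_append_left h9]
        exact h5
      have h9 : a' = a := by
        have := (hstem t ht2).symm.trans h8
        simpa using this.symm
      subst h9
      have h10 : γ' = γ := least_unique (least_mono h6 htt) (least_mono hγ ht2)
      subst h10
      exact t.con (γ', k) ⟨htt.2.2 h7, ht.2.2 (hq.2.2 hk)⟩
  exact hγ.1 ξ ha2 r2 le_rfl hval

/-- The number of the conditions. -/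
theorem mk_cond {κ lam : Cardinal.{u}} (hκ : ℵ₀ < κ) (hK : #K = κ) (hL : #L = lam)
    (hlam : κ < lam) (h2 : 2 ^ κ ≤ lam) : #(Cond U L) = lam := by
  classical
  have hlam0 : ℵ₀ ≤ lam := (hκ.trans hlam).le
  have : Infinite K := by
    rw [Cardinal.infinite_iff, hK]
    exact hκ.le
  have : Infinite L := by
    rw [Cardinal.infinite_iff, hL]
    exact hlam0
  apply le_antisymm
  · have h3 : Function.Injective (fun c : Cond U L => (c.stem, c.tree, c.coh)) := by
      rintro ⟨s, T, hT, c, hc⟩ ⟨s', T', hT', c', hc'⟩ h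
      simp only [Prod.mk.injEq] at h
      obtain ⟨rfl, rfl, rfl⟩ := h
      rfl
    refine (Cardinal.mk_le_of_injective h3).trans ?_
    rw [Cardinal.mk_prod, Cardinal.mk_prod, Cardinal.lift_id, Cardinal.lift_id, Cardinal.lift_id,
      Cardinal.lift_id]
    have h4 : #(List K) = κ := by rw [Cardinal.mk_list_eq_mk, hK]
    have h5 : #(List K → Set K) ≤ lam := by
      rw [← Cardinal.power_def, Cardinal.mk_set, h4, hK, ← Cardinal.power_mul,
        Cardinal.mul_eq_self hκ.le]
      exact h2
    have h6 : #(Finset ((L × ℕ) × Bool)) = lam := by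
      rw [Cardinal.mk_finset_of_infinite, Cardinal.mk_prod, Cardinal.mk_prod, Cardinal.mk_bool,
        Cardinal.mk_nat, hL, Cardinal.lift_uzero, Cardinal.lift_uzero,
        Cardinal.lift_aleph0, Cardinal.mul_aleph0_eq hlam0, Cardinal.lift_two]
      exact Cardinal.mul_eq_left hlam0 ((Cardinal.natCast_lt_aleph0 (n := 2)).le.trans hlam0)
        two_ne_zero
    rw [h4, h6]
    calc κ * (#(List K → Set K) * lam) ≤ lam * (lam * lam) := by gcongr
      _ = lam := by rw [Cardinal.mul_eq_self hlam0, Cardinal.mul_eq_self hlam0]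
  · rw [← hL]
    let f : L → Cond U L := fun γ => ⟨[], fun _ => Set.univ, fun _ => Filter.univ_mem,
      {((γ, 0), true)}, by simp⟩
    have hf : Function.Injective f := by
      intro γ γ' h
      have h3 : (f γ).coh = (f γ').coh := congrArg Cond.coh h
      simp only [f, Finset.singleton_inj, Prod.mk.injEq, and_true] at h3
      exact h3
    exact Cardinal.mk_le_of_injective hf

end Forcing

theorem mk_Iio_lt' {c : Cardinal.{u}} (a : c.ord.ToType) : #(Iio a) < c := by
  have h := Cardinal.mk_Iio_lt a (by rw [Cardinal.mk_ord_toType, Ordinal.type_toType])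
  rwa [Cardinal.mk_ord_toType] at h

/-- Assume GCH, and let `κ` be a measurable cardinal: `κ` is uncountable and `U` is a `κ`-complete
non-principal ultrafilter over `κ`. There are singular cardinals `lam` of cofinality `κ`, and for
each of them there is a forcing notion `P` of cardinality `lam` such that `P` preserves all
cardinals, and no condition of `P` forces that some function from `lam` enumerates (by codes in the
ground model) all the reals that have a code in the ground model. -/
theorem result (gch : ∀ c : Cardinal.{u}, ℵ₀ ≤ c → (2 : Cardinal.{u}) ^ c = Order.succ c)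
    (κ : Cardinal.{u}) (hκ : ℵ₀ < κ) (U : Ultrafilter κ.ord.ToType)
    (hcomplete : ∀ S : Set (Set κ.ord.ToType), #S < κ → (∀ s ∈ S, s ∈ U) → ⋂₀ S ∈ U)
    (hnonprincipal : ∀ a : κ.ord.ToType, {a} ∉ U) :
    (∃ lam : Cardinal.{u}, κ < lam ∧ lam.ord.cof = κ) ∧
    ∀ lam : Cardinal.{u}, κ < lam → lam.ord.cof = κ →
      ∃ (P : Type u) (_ : Preorder P), #P = lam ∧ PreservesCardinals P ∧
        ∀ (F : lam.ord.ToType → Set (ℕ × P) → Set P) (p : P), p ∉ Enumerates F := by
  classical
  have hK : #κ.ord.ToType = κ := Cardinal.mk_ord_toType κ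
  have hU : ∀ (ι : Type u) (A : ι → Set κ.ord.ToType), #ι < κ → (∀ i, A i ∈ U) →
      (⋂ i, A i) ∈ U := by
    intro ι A hι hA
    rw [← sInter_range]
    apply hcomplete
    · exact Cardinal.mk_range_le.trans_lt hι
    · rintro _ ⟨i, rfl⟩
      exact hA i
  have hsmall : ∀ S : Set κ.ord.ToType, #S < κ → Sᶜ ∈ U := by
    intro S hS
    have h1 := hU S (fun a => {a.1}ᶜ) hS
      (fun a => Ultrafilter.compl_mem_iff_notMem.2 (hnonprincipal a.1))
    refine Filter.mem_of_superset h1 fun b hb hbS => ?_
    exact (mem_iInter.1 hb ⟨b, hbS⟩) rfl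
  have hIio : ∀ a : κ.ord.ToType, #(Iio a) < κ := fun a => mk_Iio_lt' a
  have hIci : ∀ a : κ.ord.ToType, Ici a ∈ U := by
    intro a
    have h1 := hsmall (Iio a) (hIio a)
    rwa [compl_Iio] at h1
  have hreg : κ.ord.cof = κ := by
    apply le_antisymm (Ordinal.cof_ord_le κ)
    by_contra hcon
    push Not at hcon
    obtain ⟨S, hS, hSc⟩ := Order.exists_cof_eq κ.ord.ToType
    rw [Ordinal.cof_toType] at hSc
    have h1 : (⋂ s : S, (Iic s.1)ᶜ) ∈ U := by
      apply hU S
      · rw [hSc]
        exact hcon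
      · intro s
        apply hsmall
        have h2 : Iic s.1 = insert s.1 (Iio s.1) := by
          ext x
          simp [le_iff_eq_or_lt]
        rw [h2]
        refine (Cardinal.mk_insert_le).trans_lt ?_
        exact Cardinal.add_lt_of_lt hκ.le (hIio _) (Cardinal.one_lt_aleph0.trans hκ)
    obtain ⟨a, ha⟩ := U.nonempty_of_mem h1
    obtain ⟨s, hs, has⟩ := hS a
    exact (mem_iInter.1 ha ⟨s, hs⟩) has
  refine ⟨?_, ?_⟩
  · refine ⟨ℵ_ (κ.ord + κ.ord), ?_, ?_⟩
    · refine (Cardinal.le_aleph_ord κ).trans_lt (Cardinal.aleph_lt_aleph.2 ?_)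
      have h0 : 0 < κ.ord := Cardinal.ord_pos.2 (Cardinal.aleph0_pos.trans hκ)
      exact lt_add_of_pos_right _ h0
    · have hl := Ordinal.isSuccLimit_add κ.ord (Cardinal.isSuccLimit_ord hκ.le)
      rw [Cardinal.ord_aleph, Ordinal.cof_omega hl, Ordinal.cof_add, hreg]
      exact (Cardinal.ord_pos.2 (Cardinal.aleph0_pos.trans hκ)).ne'
  · intro lam hlam hcof
    have hlam0 : ℵ₀ ≤ lam := (hκ.trans hlam).le
    have hL : #(lam.ord.ToType) = lam := Cardinal.mk_ord_toType lam
    have hseg : ∀ ν : lam.ord.ToType, #(Iio ν) < #(lam.ord.ToType) := by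
      intro ν
      rw [hL]
      exact mk_Iio_lt' ν
    have h2 : 2 ^ κ ≤ lam := by
      rw [gch κ hκ.le]
      exact Order.succ_le_of_lt hlam
    -- a map with large values
    have hg : ∃ g : κ.ord.ToType → lam.ord.ToType, ∀ ξ, {a | ξ < g a} ∈ U := by
      obtain ⟨S, hS, hSc⟩ := Order.exists_cof_eq lam.ord.ToType
      rw [Ordinal.cof_toType, hcof] at hSc
      obtain ⟨e⟩ : Nonempty (κ.ord.ToType ≃ S) := by
        rw [← Cardinal.eq, hK, hSc]
      have key : ∀ a : κ.ord.ToType, ∃ y : lam.ord.ToType, ∀ b ≤ a, (e b).1 < y := by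
        intro a
        have h3 : ¬ IsCofinal ((fun b => (e b).1) '' Iic a) := by
          intro h4
          have h5 := Order.cof_le h4
          rw [Ordinal.cof_toType, hcof] at h5
          have h6 : #((fun b => (e b).1) '' Iic a) < κ := by
            refine Cardinal.mk_image_le.trans_lt ?_
            have h2 : Iic a = insert a (Iio a) := by
              ext x
              simp [le_iff_eq_or_lt]
            rw [h2]
            refine (Cardinal.mk_insert_le).trans_lt ?_
            exact Cardinal.add_lt_of_lt hκ.le (hIio _) (Cardinal.one_lt_aleph0.trans hκ)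
          exact absurd h5 (not_le.2 h6)
        simp only [IsCofinal, not_forall, not_exists, not_and, not_le] at h3
        obtain ⟨y, hy⟩ := h3
        exact ⟨y, fun b hb => hy _ ⟨b, hb, rfl⟩⟩
      choose g hg using key
      refine ⟨g, fun ξ => ?_⟩
      obtain ⟨s, hs, hξs⟩ := hS ξ
      refine Filter.mem_of_superset (hIci (e.symm ⟨s, hs⟩)) fun a ha => ?_
      have h3 := hg a (e.symm ⟨s, hs⟩) ha
      rw [Equiv.apply_symm_apply] at h3
      exact hξs.trans_lt h3
    obtain ⟨g, hg⟩ := hg
    refine ⟨Cond U lam.ord.ToType, inferInstance, mk_cond hκ hK hL hlam h2, ?_, ?_⟩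
    · rintro μ ν hμ hμν F p ⟨⟨_, hF2⟩, hF3⟩
      refine nocollapse hκ hK hU hnonprincipal (X := μ.ord.ToType) (Y := ν.ord.ToType) ?_ ?_
        (fun x y => Meets (F x y)) (fun x y q r h hr => meets_mono h hr) p ?_ ?_
      · rw [Cardinal.mk_ord_toType]
        exact hμ
      · rw [Cardinal.mk_ord_toType, Cardinal.mk_ord_toType]
        exact hμν
      · intro q hq x y y' h h'
        by_contra hne
        exact hF2 x y y' hne q hq ⟨h, h'⟩
      · intro y q hq
        exact mem_Fex.1 (hF3 y) q hq
    · intro F p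
      exact not_enumerates hκ hK (by rw [hL]; exact hlam) hseg g hg F p

end Pool.Agent.Results.MP_fa650a_lc.MeasurableCofinality
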